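import Pool.Agent.Helper67.Wav.Four
import Pool.Agent.Helper79.Wav.Lat

/-!
# Module NH: growth of powers of expansive matrices and small tails
-/

open MeasureTheory Filter Topology
open scoped FourierTransform RealInnerProductSpace Matrix ENNReal ComplexConjugate

noncomputable section

namespace Wav

private theorem nh_act_bound {n : ℕ} (M : Matrix (Fin n) (Fin n) ℝ) :
    ∃ K : ℝ, 0 < K ∧ ∀ x : E n, ‖act M x‖ ≤ K * ‖x‖ := by
  refine ⟨‖LinearMap.toContinuousLinearMap (Matrix.toEuclideanLin M : E n →ₗ[ℝ] E n)‖ + 1,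
    by positivity, fun x => ?_⟩
  rw [act_eq]
  have h := (LinearMap.toContinuousLinearMap
    (Matrix.toEuclideanLin M : E n →ₗ[ℝ] E n)).le_opNorm x
  have h0 := norm_nonneg x
  calc ‖(Matrix.toEuclideanLin M : E n →ₗ[ℝ] E n) x‖ ≤
      ‖LinearMap.toContinuousLinearMap (Matrix.toEuclideanLin M : E n →ₗ[ℝ] E n)‖ * ‖x‖ := h
    _ ≤ _ := by nlinarith

private theorem nh_unit {n : ℕ} {A : Matrix (Fin n) (Fin n) ℝ} (hA : Expansive A) :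
    IsUnit (Aᵀ).det := by
  rw [isUnit_iff_ne_zero]
  exact expansive_det (expansive_transpose hA)

private theorem nh_act_zpow {n : ℕ} {A : Matrix (Fin n) (Fin n) ℝ} (hA : Expansive A) (i j : ℤ)
    (x : E n) : act (Aᵀ ^ (i + j)) x = act (Aᵀ ^ i) (act (Aᵀ ^ j) x) := by
  rw [Matrix.zpow_add (nh_unit hA), act_mul]

/-- Module NH. -/
theorem growth_neg {n : ℕ} {A : Matrix (Fin n) (Fin n) ℝ} (hA : Expansive A) (j0 : ℤ) :
    ∃ c ρ : ℝ, 0 < c ∧ 1 < ρ ∧ ∀ j : ℤ, j ≤ j0 → ∀ ξ : E n,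
      c * ρ ^ (-j) * ‖ξ‖ ≤ ‖act (Aᵀ ^ (-j)) ξ‖ := by
  obtain ⟨C, ρ, hC, hρ, h⟩ := expansive_growth (expansive_transpose hA)
  obtain ⟨K, hK, hKb⟩ := nh_act_bound (Aᵀ ^ ((j0.toNat : ℕ) : ℤ))
  have hρ0 : 0 < ρ := by linarith
  refine ⟨ρ ^ (((j0.toNat : ℕ) : ℤ)) / (C * K), ρ, by positivity, hρ, ?_⟩
  intro j hj ξ
  set M : ℤ := ((j0.toNat : ℕ) : ℤ) with hM
  have hjM : j ≤ M := hj.trans (Int.self_le_toNat j0)
  obtain ⟨m, hm⟩ := Int.eq_ofNat_of_zero_le (sub_nonneg.2 hjM)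
  have e1 : act (Aᵀ ^ m) ξ = act (Aᵀ ^ M) (act (Aᵀ ^ (-j)) ξ) := by
    rw [← nh_act_zpow hA]
    have : M + -j = (m : ℤ) := by rw [← hm]; ring
    rw [this, zpow_natCast]
  have h1 := h m ξ
  have h2 := hKb (act (Aᵀ ^ (-j)) ξ)
  rw [← e1] at h2
  have e2 : ρ ^ M * ρ ^ (-j) = ρ ^ m := by
    rw [← zpow_add₀ hρ0.ne', ← zpow_natCast]
    congr 1
  have h3 : ρ ^ m * ‖ξ‖ ≤ C * (K * ‖act (Aᵀ ^ (-j)) ξ‖) :=
    h1.trans (mul_le_mul_of_nonneg_left h2 hC.le)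
  have e3 : ρ ^ M / (C * K) * ρ ^ (-j) * ‖ξ‖ = (ρ ^ m * ‖ξ‖) / (C * K) := by
    rw [← e2]; ring
  rw [e3, div_le_iff₀ (by positivity)]
  linarith

/-- Module NH. -/
theorem growth_pos {n : ℕ} {A : Matrix (Fin n) (Fin n) ℝ} (hA : Expansive A) :
    ∃ C ρ : ℝ, 0 < C ∧ 1 < ρ ∧ ∀ j : ℤ, 0 ≤ j → ∀ ξ : E n,
      ‖act (Aᵀ ^ (-j)) ξ‖ ≤ C * ρ ^ (-j) * ‖ξ‖ := by
  obtain ⟨C, ρ, hC, hρ, h⟩ := expansive_growth (expansive_transpose hA)
  have hρ0 : 0 < ρ := by linarith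
  refine ⟨C, ρ, hC, hρ, ?_⟩
  intro j hj ξ
  obtain ⟨m, rfl⟩ := Int.eq_ofNat_of_zero_le hj
  have h1 := h m (act (Aᵀ ^ (-(m : ℤ))) ξ)
  have e1 : act (Aᵀ ^ m) (act (Aᵀ ^ (-(m : ℤ))) ξ) = ξ := by
    have := nh_act_zpow hA (m : ℤ) (-(m : ℤ)) ξ
    rw [add_neg_cancel, zpow_zero, act_one, zpow_natCast] at this
    exact this.symm
  rw [e1] at h1
  rw [zpow_neg, zpow_natCast]
  have hm : 0 < ρ ^ m := by positivity
  rw [mul_assoc, mul_comm ((ρ ^ m)⁻¹) ‖ξ‖, ← mul_assoc, ← div_eq_mul_inv, le_div_iff₀ hm]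
  linarith

private theorem nh_tsum_down (j0 : ℤ) (f : ℕ → ℝ≥0∞) :
    ∑' j : ℤ, (if j ≤ j0 then f (j0 - j).toNat else 0) = ∑' m, f m := by
  have hinj : Function.Injective (fun m : ℕ => j0 - (m : ℤ)) := by
    intro a b hab
    simp only at hab
    omega
  rw [← hinj.tsum_eq (f := fun j : ℤ => if j ≤ j0 then f (j0 - j).toNat else 0)]
  · apply tsum_congr
    intro m
    have h1 : j0 - (m : ℤ) ≤ j0 := by omega
    rw [if_pos h1]
    congr 1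
    omega
  · intro j hj
    rw [Function.mem_support] at hj
    have hle : j ≤ j0 := by
      by_contra hcon
      exact hj (if_neg hcon)
    exact ⟨(j0 - j).toNat, by simp only; omega⟩

private theorem nh_tsum_up (j0 : ℤ) (f : ℕ → ℝ≥0∞) :
    ∑' j : ℤ, (if j0 ≤ j then f (j - j0).toNat else 0) = ∑' m, f m := by
  have hinj : Function.Injective (fun m : ℕ => j0 + (m : ℤ)) := by
    intro a b hab
    simp only at hab
    omega
  rw [← hinj.tsum_eq (f := fun j : ℤ => if j0 ≤ j then f (j - j0).toNat else 0)]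
  · apply tsum_congr
    intro m
    have h1 : j0 ≤ j0 + (m : ℤ) := by omega
    rw [if_pos h1]
    congr 1
    omega
  · intro j hj
    rw [Function.mem_support] at hj
    have hle : j0 ≤ j := by
      by_contra hcon
      exact hj (if_neg hcon)
    exact ⟨(j - j0).toNat, by simp only; omega⟩

private theorem nh_geo {K s : ℝ} (hK : 0 ≤ K) (hs0 : 0 ≤ s) (hs1 : s < 1) :
    ∑' m : ℕ, ENNReal.ofReal (K * s ^ m) = ENNReal.ofReal (K * (1 - s)⁻¹) := by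
  rw [← ENNReal.ofReal_tsum_of_nonneg (fun m => by positivity)
    ((summable_geometric_of_lt_one hs0 hs1).mul_left K), tsum_mul_left,
    tsum_geometric_of_lt_one hs0 hs1]

private theorem nh_decay {C N x y : ℝ} (hN : 0 < N) (hx : 0 < x) (hxy : x ≤ y) :
    C * (1 + y) ^ (-N) ≤ |C| * x ^ (-N) := by
  have h1 : (1 + y) ^ (-N) ≤ x ^ (-N) :=
    Real.rpow_le_rpow_of_nonpos hx (by linarith) (by linarith)
  have h2 : 0 ≤ (1 + y) ^ (-N) := Real.rpow_nonneg (by linarith) _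
  calc C * (1 + y) ^ (-N) ≤ |C| * (1 + y) ^ (-N) :=
        mul_le_mul_of_nonneg_right (le_abs_self C) h2
    _ ≤ |C| * x ^ (-N) := mul_le_mul_of_nonneg_left h1 (abs_nonneg _)

private theorem nh_rpow {a ρ N : ℝ} (ha : 0 < a) (hρ : 0 < ρ) (m : ℕ) :
    (a * ρ ^ m) ^ (-N) = a ^ (-N) * (ρ ^ (-N)) ^ m := by
  rw [Real.mul_rpow ha.le (by positivity), Real.rpow_pow_comm hρ.le]

private theorem nh_ratio {ρ N : ℝ} (hρ : 1 < ρ) (hN : 0 < N) :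
    0 ≤ ρ ^ (-N) ∧ ρ ^ (-N) < 1 := by
  refine ⟨Real.rpow_nonneg (by linarith) _, ?_⟩
  exact Real.rpow_lt_one_of_one_lt_of_neg hρ (by linarith)

private theorem nh_enorm {z : ℂ} {b : ℝ} (h : ‖z‖ ≤ b) : ‖z‖ₑ ≤ ENNReal.ofReal b := by
  rw [← ofReal_norm]
  exact ENNReal.ofReal_le_ofReal h

/-- Module NH. -/
theorem far_small {n L : ℕ} {A : Matrix (Fin n) (Fin n) ℝ} (hA : Expansive A)
    {Ψ : Fin L → E n → ℂ} {N C : ℝ} (hN : 0 < N) (hΨ : ∀ l ξ, ‖Ψ l ξ‖ ≤ C * (1 + ‖ξ‖) ^ (-N))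
    (j0 : ℤ) {ε : ℝ≥0∞} (hε : 0 < ε) :
    ∃ R0 : ℝ, 0 < R0 ∧ ∃ a : ℤ → ℝ≥0∞, ∑' j, a j ≤ ε ∧ ∀ l, ∀ j ≤ j0, ∀ ξ : E n,
      R0 ≤ ‖ξ‖ → ‖Ψ l (act (Aᵀ ^ (-j)) ξ)‖ₑ ≤ a j := by
  obtain ⟨c, ρ, hc, hρ, hg⟩ := growth_neg hA j0
  obtain ⟨ε', hε1, hε2⟩ := ENNReal.lt_iff_exists_nnreal_btwn.1 hε
  have hρ0 : 0 < ρ := by linarith
  obtain ⟨hs0, hs1⟩ := nh_ratio hρ hN
  set s := ρ ^ (-N) with hs
  set c' := c * ρ ^ (-j0) with hc'
  have hc'0 : 0 < c' := by positivity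
  have hε'0 : (0 : ℝ) < ε' := by
    have : (0 : ℝ≥0∞) < ε' := hε1
    exact_mod_cast this
  have h1s : 0 < (1 - s)⁻¹ := inv_pos.2 (by linarith)
  -- choice of the radius
  have htend : Tendsto (fun x : ℝ => |C| * (1 - s)⁻¹ * x ^ (-N)) atTop (𝓝 0) := by
    have := (tendsto_rpow_neg_atTop hN).const_mul (|C| * (1 - s)⁻¹)
    simpa using this
  obtain ⟨x, hx1, hx2⟩ := ((htend.eventually (gt_mem_nhds hε'0)).and
    (eventually_gt_atTop (0 : ℝ))).exists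
  refine ⟨x / c', by positivity, fun j => if j ≤ j0 then
    ENNReal.ofReal (|C| * x ^ (-N) * s ^ (j0 - j).toNat) else 0, ?_, ?_⟩
  · rw [nh_tsum_down j0 (fun m => ENNReal.ofReal (|C| * x ^ (-N) * s ^ m)),
      nh_geo (by positivity) hs0 hs1]
    refine le_trans ?_ hε2.le
    rw [← ENNReal.ofReal_coe_nnreal]
    apply ENNReal.ofReal_le_ofReal
    refine le_trans (le_of_eq ?_) hx1.le
    ring
  · intro l j hj ξ hξ
    beta_reduce
    rw [if_pos hj]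
    apply nh_enorm
    refine (hΨ l _).trans ?_
    obtain ⟨m, hm⟩ := Int.eq_ofNat_of_zero_le (sub_nonneg.2 hj)
    have hm' : (j0 - j).toNat = m := by omega
    have e1 : ρ ^ (-j) = ρ ^ (-j0) * ρ ^ m := by
      rw [← zpow_natCast, ← zpow_add₀ hρ0.ne']
      congr 1
      omega
    have h2 : x * ρ ^ m ≤ ‖act (Aᵀ ^ (-j)) ξ‖ := by
      refine le_trans ?_ (hg j hj ξ)
      rw [e1]
      have h3 : c' * (x / c') ≤ c' * ‖ξ‖ := mul_le_mul_of_nonneg_left hξ hc'0.le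
      have h4 : c' * (x / c') = x := by field_simp
      rw [h4] at h3
      have h5 : c * (ρ ^ (-j0) * ρ ^ m) * ‖ξ‖ = (c' * ‖ξ‖) * ρ ^ m := by rw [hc']; ring
      rw [h5]
      exact mul_le_mul_of_nonneg_right h3 (by positivity)
    refine (nh_decay hN (by positivity) h2).trans (le_of_eq ?_)
    rw [nh_rpow hx2 hρ0, hm', mul_assoc]

/-- Module NH. -/
theorem near_small {n L : ℕ} {A : Matrix (Fin n) (Fin n) ℝ} (hA : Expansive A)
    {Ψ : Fin L → E n → ℂ} {N C : ℝ} (hN : 0 < N) (hΨ : ∀ l ξ, ‖Ψ l ξ‖ ≤ C * (1 + ‖ξ‖) ^ (-N))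
    {C' α : ℝ} (hα : 0 < α) (hH : ∀ l ξ ξ', ‖Ψ l ξ - Ψ l ξ'‖ ≤ C' * ‖ξ - ξ'‖ ^ α)
    {r : ℝ} (hr : 0 < r) {ε : ℝ≥0∞} (hε : 0 < ε) :
    ∃ δ : ℝ, 0 < δ ∧ ∃ a : ℤ → ℝ≥0∞, ∑' j, a j ≤ ε ∧ ∀ l, ∀ j : ℤ, ∀ ξ y : E n,
      r ≤ ‖ξ‖ → ‖ξ - y‖ ≤ δ → Ψ l (act (Aᵀ ^ (-j)) y) = 0 →
        ‖Ψ l (act (Aᵀ ^ (-j)) ξ)‖ₑ ≤ a j := by
  obtain ⟨ε', hε1, hε2⟩ := ENNReal.lt_iff_exists_nnreal_btwn.1 hε
  have hε'0 : (0 : ℝ) < ε' := by
    have : (0 : ℝ≥0∞) < ε' := hε1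
    exact_mod_cast this
  obtain ⟨c, ρ, hc, hρ, hg⟩ := growth_neg hA 0
  have hρ0 : 0 < ρ := by linarith
  obtain ⟨hs0, hs1⟩ := nh_ratio hρ hN
  set s := ρ ^ (-N) with hs
  have h1s : 0 < (1 - s)⁻¹ := inv_pos.2 (by linarith)
  -- the choice of `J`
  have htend : Tendsto (fun J : ℕ => |C| * (c * r) ^ (-N) * (1 - s)⁻¹ * s ^ J) atTop (𝓝 0) := by
    have := (tendsto_pow_atTop_nhds_zero_of_lt_one hs0 hs1).const_mul
      (|C| * (c * r) ^ (-N) * (1 - s)⁻¹)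
    simpa using this
  obtain ⟨J, hJ⟩ := (htend.eventually (gt_mem_nhds (half_pos hε'0))).exists
  obtain ⟨C1, ρ1, hC1, hρ1, hg1⟩ := growth_pos hA
  have hρ10 : 0 < ρ1 := by linarith
  obtain ⟨K, hK, hKb⟩ := nh_act_bound (Aᵀ ^ ((J : ℕ) : ℤ))
  obtain ⟨ht0, ht1⟩ := nh_ratio hρ1 hα
  set t := ρ1 ^ (-α) with ht
  have h1t : 0 < (1 - t)⁻¹ := inv_pos.2 (by linarith)
  -- the choice of `δ`
  have hcont : Tendsto (fun δ : ℝ => |C'| * (1 - t)⁻¹ * (K * C1) ^ α * δ ^ α) (𝓝[>] 0) (𝓝 0) := by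
    have h1 : Tendsto (fun δ : ℝ => δ ^ α) (𝓝[>] 0) (𝓝 0) := by
      have := (Real.continuous_rpow_const hα.le).tendsto (0 : ℝ)
      rw [Real.zero_rpow hα.ne'] at this
      exact this.mono_left nhdsWithin_le_nhds
    have := h1.const_mul (|C'| * (1 - t)⁻¹ * (K * C1) ^ α)
    simpa using this
  obtain ⟨δ, hδ1, hδ2⟩ := ((hcont.eventually (gt_mem_nhds (half_pos hε'0))).and
    self_mem_nhdsWithin).exists
  have hδ0 : 0 < δ := hδ2
  refine ⟨δ, hδ0, fun j => (if j ≤ -(J : ℤ) then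
      ENNReal.ofReal (|C| * (c * r) ^ (-N) * s ^ J * s ^ (-(J : ℤ) - j).toNat) else 0) +
    (if -(J : ℤ) ≤ j then
      ENNReal.ofReal (|C'| * (K * C1 * δ) ^ α * t ^ (j - -(J : ℤ)).toNat) else 0), ?_, ?_⟩
  · rw [ENNReal.tsum_add,
      nh_tsum_down (-(J : ℤ)) (fun m => ENNReal.ofReal (|C| * (c * r) ^ (-N) * s ^ J * s ^ m)),
      nh_tsum_up (-(J : ℤ)) (fun m => ENNReal.ofReal (|C'| * (K * C1 * δ) ^ α * t ^ m)),
      nh_geo (by positivity) hs0 hs1, nh_geo (by positivity) ht0 ht1]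
    refine le_trans ?_ hε2.le
    rw [← ENNReal.ofReal_add (by positivity) (by positivity), ← ENNReal.ofReal_coe_nnreal]
    apply ENNReal.ofReal_le_ofReal
    have e1 : |C| * (c * r) ^ (-N) * s ^ J * (1 - s)⁻¹ =
        |C| * (c * r) ^ (-N) * (1 - s)⁻¹ * s ^ J := by ring
    have e2 : |C'| * (K * C1 * δ) ^ α * (1 - t)⁻¹ =
        |C'| * (1 - t)⁻¹ * (K * C1) ^ α * δ ^ α := by
      rw [Real.mul_rpow (by positivity) hδ0.le]; ring
    rw [e1, e2]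
    linarith
  · intro l j ξ y hξ hy hz
    beta_reduce
    rcases le_total j (-(J : ℤ)) with hj | hj
    · rw [if_pos hj]
      refine le_trans ?_ (le_add_of_nonneg_right zero_le)
      apply nh_enorm
      refine (hΨ l _).trans ?_
      obtain ⟨m, hm⟩ := Int.eq_ofNat_of_zero_le (sub_nonneg.2 hj)
      have hm' : (-(J : ℤ) - j).toNat = m := by omega
      have hj0 : j ≤ 0 := by omega
      have e1 : ρ ^ (-j) = ρ ^ (J + m) := by
        rw [← zpow_natCast]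
        congr 1
        push_cast
        omega
      have h2 : c * r * ρ ^ (J + m) ≤ ‖act (Aᵀ ^ (-j)) ξ‖ := by
        refine le_trans ?_ (hg j hj0 ξ)
        rw [e1]
        have h5 : c * r * ρ ^ (J + m) = c * ρ ^ (J + m) * r := by ring
        rw [h5]
        exact mul_le_mul_of_nonneg_left hξ (by positivity)
      refine (nh_decay hN (by positivity) h2).trans (le_of_eq ?_)
      rw [nh_rpow (by positivity) hρ0, hm', pow_add]
      ring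
    · rw [if_pos hj]
      refine le_trans ?_ (le_add_of_nonneg_left zero_le)
      apply nh_enorm
      obtain ⟨m, hm⟩ := Int.eq_ofNat_of_zero_le (sub_nonneg.2 hj)
      have hm' : (j - -(J : ℤ)).toNat = m := by omega
      have h1 : ‖Ψ l (act (Aᵀ ^ (-j)) ξ)‖ ≤
          C' * ‖act (Aᵀ ^ (-j)) ξ - act (Aᵀ ^ (-j)) y‖ ^ α := by
        have := hH l (act (Aᵀ ^ (-j)) ξ) (act (Aᵀ ^ (-j)) y)
        rwa [hz, sub_zero] at this
      refine h1.trans ?_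
      rw [← act_sub]
      have e1 : -j = (J : ℤ) + -(m : ℤ) := by omega
      have h2 : ‖act (Aᵀ ^ (-j)) (ξ - y)‖ ≤ K * C1 * δ * (ρ1 ^ m)⁻¹ := by
        rw [e1, nh_act_zpow hA]
        refine (hKb _).trans ?_
        have h3 := hg1 (m : ℤ) (by omega) (ξ - y)
        have h4 : C1 * ρ1 ^ (-(m : ℤ)) * ‖ξ - y‖ ≤ C1 * ρ1 ^ (-(m : ℤ)) * δ :=
          mul_le_mul_of_nonneg_left hy (by positivity)
        rw [zpow_neg, zpow_natCast] at h3 h4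
        calc K * ‖act (Aᵀ ^ (-(m : ℤ))) (ξ - y)‖ ≤ K * (C1 * (ρ1 ^ m)⁻¹ * δ) :=
              mul_le_mul_of_nonneg_left (h3.trans h4) hK.le
          _ = _ := by ring
      have h5 : ‖act (Aᵀ ^ (-j)) (ξ - y)‖ ^ α ≤ (K * C1 * δ) ^ α * t ^ m := by
        refine (Real.rpow_le_rpow (norm_nonneg _) h2 hα.le).trans (le_of_eq ?_)
        rw [Real.mul_rpow (by positivity) (by positivity), ht, Real.rpow_pow_comm hρ10.le,
          Real.rpow_neg (by positivity), Real.inv_rpow (by positivity)]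
      have h6 : 0 ≤ ‖act (Aᵀ ^ (-j)) (ξ - y)‖ ^ α := by positivity
      calc C' * ‖act (Aᵀ ^ (-j)) (ξ - y)‖ ^ α ≤ |C'| * ‖act (Aᵀ ^ (-j)) (ξ - y)‖ ^ α :=
            mul_le_mul_of_nonneg_right (le_abs_self _) h6
        _ ≤ |C'| * ((K * C1 * δ) ^ α * t ^ m) :=
            mul_le_mul_of_nonneg_left h5 (abs_nonneg _)
        _ = |C'| * (K * C1 * δ) ^ α * t ^ (j - -(J : ℤ)).toNat := by rw [hm']; ring

end Wav
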